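import Pool.Agent.Y31.PS.Act

/-!
# An element of order `ℓ` fixes a place (for MP_2f3286_ag)
-/

set_option autoImplicit false
set_option linter.all false

open Polynomial FF

namespace Pool.Agent.Y31.PS

open Pool.Agent.Y157.PS

section orbits

variable {ℓ : ℕ} [hℓ : Fact ℓ.Prime] {κ R K : Type} [Field κ] [IsAlgClosed κ] [CharZero κ]
  [Field R] [Field K] [Algebra κ R] [Algebra R K] [Algebra κ K] [IsScalarTower κ R K] [IsFF κ K]

/-- a divisor supported on representatives of the orbits -/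
theorem orbit_div (g : K ≃ₐ[R] K) (h1 : g ^ ℓ = 1) (hfree : ∀ w : Place κ K, pl w g ≠ w) (z : K)
    (hz : ∀ (w : Place κ K) (i : ℕ), w.ord ((g ^ i) z) = w.ord z) :
    ∃ D : Place κ K →₀ ℤ, D.sum (fun _ n => n) = 0 ∧
      ∀ w : Place κ K, ∑ i ∈ Finset.range ℓ, D (pl w (g ^ i)) = w.ord z := by
  classical
  -- orbits
  let rel : Place κ K → Place κ K → Prop := fun w w' => ∃ i : ℕ, w' = pl w (g ^ i)
  have hinv : ∀ i : ℕ, ∃ j : ℕ, g ^ i * g ^ j = 1 := by
    intro i
    refine ⟨(ℓ - 1) * i, ?_⟩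
    rw [← pow_add]
    have : i + (ℓ - 1) * i = ℓ * i := by
      have := hℓ.out.one_lt
      obtain ⟨m, hm⟩ : ∃ m, ℓ = m + 1 := ⟨ℓ - 1, by omega⟩
      rw [hm]
      simp
      ring
    rw [this, pow_mul, h1, one_pow]
  let st : Setoid (Place κ K) :=
    { r := rel
      iseqv := by
        refine ⟨fun w => ⟨0, by rw [pow_zero, pl_one]⟩, ?_, ?_⟩
        · rintro w w' ⟨i, rfl⟩
          obtain ⟨j, hj⟩ := hinv i
          exact ⟨j, by rw [← pl_mul, hj, pl_one]⟩
        · rintro w w' w'' ⟨i, rfl⟩ ⟨j, rfl⟩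
          exact ⟨i + j, by rw [← pl_mul, pow_add]⟩ }
  let rep : Place κ K → Place κ K := fun w => (Quotient.mk st w).out
  have hrep1 : ∀ w, rel w (rep w) := fun w => st.symm (Quotient.mk_out (s := st) w)
  have hrep2 : ∀ w i, rep (pl w (g ^ i)) = rep w := by
    intro w i
    show (Quotient.mk st _).out = (Quotient.mk st _).out
    congr 1
    exact Quotient.sound (s := st) (st.symm ⟨i, rfl⟩)
  have hmod : ∀ (w : Place κ K) (i : ℕ), pl w (g ^ i) = pl w (g ^ (i % ℓ)) := by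
    intro w i
    conv_lhs => rw [← Nat.div_add_mod i ℓ, pow_add, pow_mul, h1, one_pow, one_mul]
  -- stabilisers are trivial
  have hstab : ∀ (w : Place κ K) (i : ℕ), 0 < i → i < ℓ → pl w (g ^ i) ≠ w := by
    intro w i hi0 hi h
    have hcop : Nat.Coprime i ℓ := by
      rw [Nat.coprime_comm]
      exact (Nat.Prime.coprime_iff_not_dvd hℓ.out).mpr (fun hd => by
        have := Nat.le_of_dvd hi0 hd
        omega)
    obtain ⟨m, hm⟩ := Nat.exists_mul_mod_eq_one_of_coprime hcop hℓ.out.one_lt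
    have h2 : Fixes w ⇑(g ^ i) := (fixes_iff w _).mpr h
    have h3 := fixes_pow h2 m
    rw [← pow_mul] at h3
    have h4 := (fixes_iff w _).mp h3
    rw [hmod, hm.2, pow_one] at h4
    exact hfree w h4
  have hinj : ∀ (w : Place κ K) (i j : ℕ), i < ℓ → j < ℓ → pl w (g ^ i) = pl w (g ^ j) →
      i = j := by
    have aux : ∀ (w : Place κ K) (i j : ℕ), i ≤ j → j < ℓ → pl w (g ^ i) = pl w (g ^ j) →
        i = j := by
      intro w i j hij hj h
      by_contra hne
      apply hstab (pl w (g ^ i)) (j - i) (by omega) (by omega)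
      rw [← pl_mul, ← pow_add, Nat.add_sub_cancel' hij, h]
    intro w i j hi hj h
    rcases le_total i j with hij | hij
    · exact aux w i j hij hj h
    · exact (aux w j i hij hi h.symm).symm
  -- the divisor
  set S : Finset (Place κ K) := (divisor κ z).support with hS
  set D : Place κ K →₀ ℤ := (divisor κ z).filter (fun w => rep w = w) with hD
  have hDv : ∀ w, D w = if rep w = w then w.ord z else 0 := by
    intro w
    rw [hD, Finsupp.filter_apply, divisor_apply]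
  have hA : ∀ w : Place κ K, ∑ i ∈ Finset.range ℓ, D (pl w (g ^ i)) = w.ord z := by
    intro w
    obtain ⟨i0, hi0⟩ := hrep1 w
    rw [hmod] at hi0
    have hi0l : i0 % ℓ < ℓ := Nat.mod_lt _ hℓ.out.pos
    rw [Finset.sum_eq_single (i0 % ℓ)]
    · rw [hDv, hrep2, if_pos hi0, pl_ord, hz]
    · intro i hi hne
      rw [hDv, hrep2, if_neg]
      intro h
      rw [hi0] at h
      exact hne (hinj w _ _ hi0l (Finset.mem_range.mp hi) h).symm
    · intro h
      exact absurd (Finset.mem_range.mpr hi0l) h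
  refine ⟨D, ?_, hA⟩
  have hSmem : ∀ w : Place κ K, w ∈ S ↔ w.ord z ≠ 0 := by
    intro w
    rw [hS, Finsupp.mem_support_iff, divisor_apply]
  have h2 : ∀ i : ℕ, ∑ w ∈ S, D (pl w (g ^ i)) = ∑ w ∈ S, D w := by
    intro i
    apply Finset.sum_equiv (plE (g ^ i))
    · intro w
      rw [hSmem, hSmem, plE_apply, pl_ord, hz]
    · intro w _
      rfl
  have h3 : ∑ w ∈ S, w.ord z = 0 := by
    have := sum_ord (κ := κ) z
    rw [Finsupp.sum] at this
    exact this
  have h4 : (ℓ : ℤ) * ∑ w ∈ S, D w = 0 := by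
    rw [← h3, ← Finset.sum_congr rfl (fun w _ => hA w), Finset.sum_comm,
      Finset.sum_congr rfl (fun i _ => h2 i), Finset.sum_const, Finset.card_range, nsmul_eq_mul]
  have h5 : ∑ w ∈ S, D w = 0 := by
    rcases mul_eq_zero.mp h4 with h | h
    · exact absurd (by exact_mod_cast h) hℓ.out.ne_zero
    · exact h
  rw [Finsupp.sum_of_support_subset D (s := S) _ _ (fun _ _ => rfl)]
  · exact h5
  · intro w hw
    rw [hSmem]
    rw [Finsupp.mem_support_iff, hDv] at hw
    intro h0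
    apply hw
    rw [h0]
    split_ifs <;> rfl

end orbits

section exf

variable {ℓ : ℕ} [hℓ : Fact ℓ.Prime] {κ R M : Type} [Field κ] [IsAlgClosed κ] [CharZero κ]
  [Field R] [Field M] [Algebra κ R] [Algebra R M] [Algebra κ M] [IsScalarTower κ R M] {x : R}
  {B : Finset κ} {Y : M}

theorem coe_pow_restrict {N : IntermediateField R M} [Normal R N] (γ : M ≃ₐ[R] M) (n : ℕ) (z : N) :
    ((((γ.restrictNormal N) ^ n) z : N) : M) = (γ ^ n) (z : M) := by
  induction n generalizing z with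
  | zero => rfl
  | succ n ih =>
    rw [pow_succ, AlgEquiv.mul_apply, ih, pow_succ, AlgEquiv.mul_apply]
    congr 1
    exact AlgEquiv.restrictNormal_commutes γ N z

theorem fixes_level (hT : S_T1) (hR : S_RES) (h : Cov ℓ κ R M x B Y) {γ : M ≃ₐ[R] M}
    (hγ : γ ^ ℓ = 1) {N : IntermediateField R M} (hN : Lev ℓ N) [Normal R N] (hY : Y ∈ N)
    (hne : ∃ z ∈ N, γ z ≠ z) :
    γ.restrictNormal N ≠ 1 ∧ ∃ w : Place κ N, Fixes w (γ.restrictNormal N) := by
  have i0 := h.gal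
  have i1 := hN.fin
  have i2 := hN.gal
  have i3 : IsFF κ N := h.rat.isFF
  set g : N ≃ₐ[R] N := γ.restrictNormal N with hg
  have hcoe : ∀ (n : ℕ) (z : N), (((g ^ n) z : N) : M) = (γ ^ n) (z : M) := coe_pow_restrict γ
  have hg1 : g ^ ℓ = 1 := by
    ext z
    rw [hcoe, hγ]
    rfl
  have hg2 : g ≠ 1 := by
    intro h1
    obtain ⟨z, hz, hne⟩ := hne
    apply hne
    have := hcoe 1 ⟨z, hz⟩
    rw [h1] at this
    exact this.symm
  refine ⟨hg2, ?_⟩
  by_contra hcon
  push Not at hcon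
  have hfree : ∀ w : Place κ N, pl w g ≠ w := fun w hw => hcon w ((fixes_iff w g).mpr hw)
  -- eigenvector
  have : NeZero ℓ := ⟨hℓ.out.ne_zero⟩
  obtain ⟨ζ, hζ⟩ := HasEnoughRootsOfUnity.exists_primitiveRoot κ ℓ
  have hζ0 : ζ ≠ 0 := hζ.ne_zero hℓ.out.ne_zero
  obtain ⟨z, hz0, hz⟩ := exists_eigen g hg1 hg2 (algebraMap κ N ζ)
    (by rw [← map_pow, hζ.pow_eq_one, map_one]) (aut_const g ζ)
  have hzi : ∀ i : ℕ, (g ^ i) z = algebraMap κ N (ζ ^ i) * z := by
    intro i
    induction i with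
    | zero => simp
    | succ i ih =>
      rw [pow_succ', AlgEquiv.mul_apply, ih, map_mul, aut_const, hz, pow_succ, map_mul]
      ring
  have hzo : ∀ (w : Place κ N) (i : ℕ), w.ord ((g ^ i) z) = w.ord z := by
    intro w i
    rw [hzi, w.ord_mul _ hz0, w.ord_const (pow_ne_zero _ hζ0), zero_add]
    rw [_root_.map_ne_zero]
    exact pow_ne_zero _ hζ0
  obtain ⟨D, hD0, hD⟩ := orbit_div g hg1 hfree z hzo
  obtain ⟨z1, hz10, hz1⟩ := hT ℓ κ R N x h.rat hN.card (-D) (by
    have : (-D).sum (fun _ n => n) = -(D.sum fun _ n => n) := by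
      rw [Finsupp.sum_neg_index (fun _ => rfl), Finsupp.sum, Finsupp.sum, Finset.sum_neg_distrib]
    rw [this, hD0]
    simp)
  set G : N := z * ∏ i ∈ Finset.range ℓ, (g ^ i) z1 with hG
  have hprod0 : ∏ i ∈ Finset.range ℓ, (g ^ i) z1 ≠ 0 :=
    Finset.prod_ne_zero_iff.mpr fun i _ => (_root_.map_ne_zero _).mpr hz10
  have hG0 : G ≠ 0 := mul_ne_zero hz0 hprod0
  have hordG : ∀ w : Place κ N, (ℓ : ℤ) ∣ w.ord G := by
    intro w
    have h2 : w.ord (∏ i ∈ Finset.range ℓ, (g ^ i) z1) =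
        ∑ i ∈ Finset.range ℓ, w.ord ((g ^ i) z1) := by
      have : ∀ n : ℕ, w.ord (∏ i ∈ Finset.range n, (g ^ i) z1) =
          ∑ i ∈ Finset.range n, w.ord ((g ^ i) z1) := by
        intro n
        induction n with
        | zero => simp [w.ord_one]
        | succ n ih =>
          rw [Finset.prod_range_succ, w.ord_mul, ih, Finset.sum_range_succ]
          · exact Finset.prod_ne_zero_iff.mpr fun i _ => (_root_.map_ne_zero _).mpr hz10
          · exact (_root_.map_ne_zero _).mpr hz10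
      exact this ℓ
    rw [hG, w.ord_mul hz0 hprod0, h2, ← hD w, ← Finset.sum_add_distrib]
    apply Finset.dvd_sum
    intro i _
    have h3 := hz1 (pl w (g ^ i))
    rw [pl_ord, Finsupp.neg_apply] at h3
    have h4 : D (pl w (g ^ i)) + w.ord ((g ^ i) z1) = w.ord ((g ^ i) z1) - -D (pl w (g ^ i)) := by
      ring
    rw [h4]
    exact h3
  -- the root
  obtain ⟨u, hu⟩ := h.root (G : M) (by simpa using hG0) (by
    intro W
    obtain ⟨w, hw⟩ := (hR ℓ κ R M x B Y h N hN.fin hY).1 W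
    rw [hw]
    exact hordG w)
  have hGM0 : (G : M) ≠ 0 := by simpa using hG0
  have hu0 : u ≠ 0 := by
    rintro rfl
    rw [zero_pow hℓ.out.ne_zero] at hu
    exact hGM0 hu.symm
  have hgG : g G = algebraMap κ N ζ * G := by
    rw [hG, map_mul, hz, prod_shift g hg1 z1 hz10]
    ring
  have hγG : γ (G : M) = algebraMap κ M ζ * (G : M) := by
    have h2 : ((g G : N) : M) = γ (G : M) := hcoe 1 G
    rw [← h2, hgG]
    rfl
  have h5 : (γ u / u) ^ ℓ = algebraMap κ M ζ := by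
    rw [div_pow, ← map_pow, hu, hγG, mul_div_cancel_right₀ _ hGM0]
  obtain ⟨d, hd, hdl⟩ := root_const hℓ.out.pos h5
  have hγu : γ u = algebraMap κ M d * u := by
    rw [← hd, div_mul_cancel₀ _ hu0]
  have hγn : ∀ n : ℕ, (γ ^ n) u = algebraMap κ M (d ^ n) * u := by
    intro n
    induction n with
    | zero => simp
    | succ n ih =>
      rw [pow_succ', AlgEquiv.mul_apply, ih, map_mul, aut_const, hγu, pow_succ, map_mul]
      ring
  have h6 := hγn ℓ
  rw [hγ, hdl, AlgEquiv.one_apply] at h6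
  have h7 : algebraMap κ M ζ = 1 := by
    have : (1 : M) * u = algebraMap κ M ζ * u := by rw [one_mul]; exact h6
    exact (mul_right_cancel₀ hu0 this).symm
  have h8 : ζ = 1 := (algebraMap κ M).injective (by rw [h7, map_one])
  exact hζ.ne_one hℓ.out.one_lt h8

/-- **an element of order `ℓ` fixes a place** -/
theorem exf : S_T1 → S_RES → S_STAB → S_EXF := by
  intro hT hR hS ℓ hℓ κ R M _ _ _ _ _ _ _ _ _ x B Y h γ hγ hγ1
  classical
  have i0 := h.gal
  -- the index set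
  let I : Type := {N : IntermediateField R M // Lev ℓ N ∧ Y ∈ N ∧ ∃ z ∈ N, γ z ≠ z}
  obtain ⟨y, hy⟩ : ∃ y, γ y ≠ y := by
    by_contra hcon
    push Not at hcon
    exact hγ1 (AlgEquiv.ext hcon)
  have hext : ∀ s : Finset M, ∃ N : I, ∀ z ∈ s, z ∈ N.1 := by
    intro s
    obtain ⟨N, hN, hs⟩ := exists_lev h.pow (insert Y (insert y s))
    exact ⟨⟨N, hN, hs Y (by simp), y, hs y (by simp), hy⟩, fun z hz => hs z (by simp [hz])⟩
  have hsup : ∀ N N' : I, ∃ N'' : I, N.1 ≤ N''.1 ∧ N'.1 ≤ N''.1 := by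
    intro N N'
    refine ⟨⟨N.1 ⊔ N'.1, lev_sup N.2.1 N'.2.1, (le_sup_left : N.1 ≤ N.1 ⊔ N'.1) N.2.2.1, ?_⟩,
      le_sup_left, le_sup_right⟩
    obtain ⟨z, hz, hne⟩ := N.2.2.2
    exact ⟨z, (le_sup_left : N.1 ≤ N.1 ⊔ N'.1) hz, hne⟩
  have hI1 : Nonempty I := ⟨(hext ∅).choose⟩
  have hI2 : IsDirected I (· ≤ ·) := ⟨fun N N' => by
    obtain ⟨N'', h1, h2⟩ := hsup N N'
    exact ⟨N'', h1, h2⟩⟩
  -- fixed places of the levels
  have hw : ∀ N : I, ∃ w : Place κ N.1, (∀ (z : M) (hz : z ∈ N.1) (hγz : γ z ∈ N.1),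
      w.Reg ⟨γ z, hγz⟩ ↔ w.Reg ⟨z, hz⟩) ∧
      ∃ e ∈ B, w.ord (algebraMap R N.1 x - algebraMap κ N.1 e) = ℓ := by
    intro N
    have i2 := N.2.1.gal
    have i3 : Normal R N.1 := inferInstance
    obtain ⟨h1, w, hw⟩ := fixes_level hT hR h hγ N.2.1 N.2.2.1 N.2.2.2
    refine ⟨w, ?_, above_N hS hR h N.2.1 N.2.2.1 h1 hw⟩
    intro z hz hγz
    have h2 : (⟨γ z, hγz⟩ : N.1) = γ.restrictNormal N.1 ⟨z, hz⟩ := by
      apply Subtype.ext
      exact (coe_pow_restrict γ 1 ⟨z, hz⟩).symm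
    rw [h2]
    by_cases hz0 : (⟨z, hz⟩ : N.1) = 0
    · rw [hz0, map_zero]
    · rw [w.reg_iff ((_root_.map_ne_zero _).mpr hz0), w.reg_iff hz0, hw]
  choose w hw1 hw2 using hw
  -- the ultrafilter
  let U : Ultrafilter I := Ultrafilter.of Filter.atTop
  have hU : (U : Filter I) ≤ Filter.atTop := Ultrafilter.of_le _
  have hmem : ∀ z : M, ∀ᶠ N : I in U, z ∈ N.1 := by
    intro z
    apply hU
    obtain ⟨N, hN⟩ := hext {z}
    filter_upwards [Filter.eventually_ge_atTop N] with N' hN'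
    exact hN' (hN z (by simp))
  let V : ValuationSubring M :=
    { carrier := {z | ∀ᶠ N : I in U, ∃ hz : z ∈ N.1, (w N).Reg ⟨z, hz⟩}
      mul_mem' := by
        intro a b ha hb
        filter_upwards [ha, hb] with N ha hb
        obtain ⟨ha1, ha2⟩ := ha
        obtain ⟨hb1, hb2⟩ := hb
        exact ⟨mul_mem ha1 hb1, (w N).reg_mul ha2 hb2⟩
      one_mem' := Filter.Eventually.of_forall fun N => ⟨one_mem _, (w N).reg_one⟩
      add_mem' := by
        intro a b ha hb
        filter_upwards [ha, hb] with N ha hb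
        obtain ⟨ha1, ha2⟩ := ha
        obtain ⟨hb1, hb2⟩ := hb
        exact ⟨add_mem ha1 hb1, (w N).reg_add ha2 hb2⟩
      zero_mem' := Filter.Eventually.of_forall fun N => ⟨zero_mem _, (w N).reg_zero⟩
      neg_mem' := by
        intro a ha
        filter_upwards [ha] with N ha
        obtain ⟨ha1, ha2⟩ := ha
        exact ⟨neg_mem ha1, (w N).reg_neg ha2⟩
      mem_or_inv_mem' := by
        intro z
        have h1 : ∀ᶠ N : I in U, (∃ hz : z ∈ N.1, (w N).Reg ⟨z, hz⟩) ∨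
            (∃ hz : z⁻¹ ∈ N.1, (w N).Reg ⟨z⁻¹, hz⟩) := by
          filter_upwards [hmem z] with N hz
          have h2 := (w N).O.mem_or_inv_mem ⟨z, hz⟩
          rcases h2 with h2 | h2
          · exact Or.inl ⟨hz, h2⟩
          · exact Or.inr ⟨inv_mem hz, h2⟩
        exact Ultrafilter.eventually_or.mp h1 }
  have hVmem : ∀ z : M, z ∈ V ↔ ∀ᶠ N : I in U, ∃ hz : z ∈ N.1, (w N).Reg ⟨z, hz⟩ := fun z => Iff.rfl
  have hVc : ∀ c : κ, algebraMap κ M c ∈ V := by
    intro c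
    rw [hVmem]
    refine Filter.Eventually.of_forall fun N => ?_
    exact ⟨(algebraMap κ N.1 c).2, (w N).reg_const c⟩
  have hVtop : V ≠ ⊤ := by
    intro htop
    have h1 : ∀ e ∈ B, ∀ᶠ N : I in U,
        (w N).ord (algebraMap R N.1 x - algebraMap κ N.1 e) ≠ ℓ := by
      intro e he
      have h2 : (algebraMap R M x - algebraMap κ M e)⁻¹ ∈ V := by rw [htop]; trivial
      rw [hVmem] at h2
      filter_upwards [h2] with N h2 h3
      obtain ⟨h4, h5⟩ := h2
      have h6 : (⟨(algebraMap R M x - algebraMap κ M e)⁻¹, h4⟩ : N.1) =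
          (algebraMap R N.1 x - algebraMap κ N.1 e)⁻¹ := rfl
      rw [h6] at h5
      have h7 : (algebraMap R N.1 x - algebraMap κ N.1 e) ≠ 0 := by
        intro h0
        rw [h0, (w N).ord_zero] at h3
        exact hℓ.out.ne_zero (by exact_mod_cast h3.symm)
      rw [(w N).reg_iff (inv_ne_zero h7), (w N).ord_inv, h3] at h5
      have := hℓ.out.pos
      omega
    have h2 : ∀ᶠ N : I in U, ∀ e ∈ B,
        (w N).ord (algebraMap R N.1 x - algebraMap κ N.1 e) ≠ ℓ :=
      (Filter.eventually_all_finset B).mpr h1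
    obtain ⟨N, hN⟩ := h2.exists
    obtain ⟨e, he, h3⟩ := hw2 N
    exact hN e he h3
  obtain ⟨W, hWO, -⟩ := h.loc V hVc hVtop
  refine ⟨W, (fixes_iff W γ).mpr (Place.ext_O ?_)⟩
  ext z
  rw [hWO]
  have h1 : z ∈ (pl W γ).O ↔ γ z ∈ W.O := by
    rw [Place.mem_O, Place.mem_O]
    by_cases hz0 : z = 0
    · rw [hz0, map_zero]
      exact ⟨fun _ => W.reg_zero, fun _ => (pl W γ).reg_zero⟩
    · rw [(pl W γ).reg_iff hz0, W.reg_iff ((_root_.map_ne_zero γ).mpr hz0)]
      rfl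
  rw [h1, hWO, hVmem, hVmem]
  constructor
  · intro h2
    filter_upwards [h2, hmem z] with N h2 hz
    obtain ⟨h3, h4⟩ := h2
    exact ⟨hz, (hw1 N z hz h3).mp h4⟩
  · intro h2
    filter_upwards [h2, hmem (γ z)] with N h2 hz
    obtain ⟨h3, h4⟩ := h2
    exact ⟨hz, (hw1 N z h3 hz).mpr h4⟩

end exf

end Pool.Agent.Y31.PS
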