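import Pool.Agent.Y31.PS.Unq

/-!
# An element of order `ℓ` fixes only one place: conclusion (for MP_2f3286_ag)
-/

set_option autoImplicit false
set_option linter.all false

open Polynomial FF

namespace Pool.Agent.Y31.PS

open Pool.Agent.Y157.PS

section third

variable {κ R M : Type} [Field κ] [IsAlgClosed κ] [CharZero κ]
  [Field R] [Field M] [Algebra κ R] [Algebra R M] [Algebra κ M] [IsScalarTower κ R M] {x : R}
  {B : Finset κ} {Y : M}

theorem sq_eq_one_cases {F : Type} [Field F] {a : F} (h : a ^ 2 = 1) : a = 1 ∨ a = -1 := by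
  have h1 : a ^ 2 = 1 ^ 2 := by rw [h, one_pow]
  exact sq_eq_sq_iff_eq_or_eq_neg.mp h1

theorem sq_eq_cases {g : M ≃ₐ[R] M} {y : M} (h : g (y ^ 2) = y ^ 2) : g y = y ∨ g y = -y := by
  rw [map_pow] at h
  exact sq_eq_sq_iff_eq_or_eq_neg.mp h

theorem same_point [hℓ : Fact (Nat.Prime 2)] (hR : S_RES) (hS : S_STAB) (h : Cov 2 κ R M x B Y)
    {γ : M ≃ₐ[R] M} (hγ1 : γ ≠ 1) {W W' : Place κ M} (hW : Fixes W γ) (hW' : Fixes W' γ) :
    ∃ e ∈ B, W.ord (algebraMap R M x - algebraMap κ M e) = 2 ∧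
      W'.ord (algebraMap R M x - algebraMap κ M e) = 2 := by
  classical
  obtain ⟨⟨e, he, h1, h2⟩, -⟩ := above_M hS h hγ1 hW
  obtain ⟨⟨e', he', h1', h2'⟩, -⟩ := above_M hS h hγ1 hW'
  by_cases hee : e = e'
  · exact ⟨e, he, h1, by rw [hee]; exact h1'⟩
  exfalso
  obtain ⟨ζ, hζ, hY⟩ := zeta_Y hS h hγ1 hW
  have hζ1 : ζ = -1 := by
    have h3 : ζ ^ 2 = 1 := hζ.pow_eq_one
    rcases sq_eq_one_cases h3 with h4 | h4
    · exact absurd h4 (hζ.ne_one (by norm_num))
    · exact h4
  have hY' : γ Y = -Y := by rw [hY, hζ1, map_neg, map_one, neg_one_mul]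
  have hY0 : Y ≠ 0 := by
    rintro rfl
    rw [W.ord_zero] at h2
    exact zero_ne_one h2
  -- a third branch point
  obtain ⟨f, hf, hfe, hfe'⟩ : ∃ f ∈ B, f ≠ e ∧ f ≠ e' := by
    by_contra hcon
    push Not at hcon
    have h3 : B ⊆ {e, e'} := by
      intro f hf
      by_cases hfe : f = e
      · simp [hfe]
      · simp [hcon f hf hfe]
    have h4 := Finset.card_le_card h3
    have h5 := Finset.card_le_two (a := e) (b := e')
    have h6 := h.three
    omega
  have hg0 : (algebraMap R M x - algebraMap κ M e) * (algebraMap R M x - algebraMap κ M f) ≠ 0 :=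
    mul_ne_zero (xsub_ne h e) (xsub_ne h f)
  obtain ⟨y, hy⟩ := h.root _ hg0 (by
    intro U
    rw [U.ord_mul (xsub_ne h e) (xsub_ne h f)]
    have key : ∀ a : κ, U.ord (algebraMap R M x - algebraMap κ M a) = 2 ∨
        0 < U.ord (algebraMap R M x - algebraMap κ M a) → ∀ b : κ, a ≠ b →
        U.ord (algebraMap R M x - algebraMap κ M b) = 0 := by
      intro a ha b hab
      apply ord_sub_zero U _ hab
      rcases ha with ha | ha
      · rw [ha]; norm_num
      · exact ha
    rcases h.loc' U with ⟨a, ha, h3, -⟩ | ⟨a, ha, h3⟩ | h3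
    · have h3' : U.ord (algebraMap R M x - algebraMap κ M a) = 2 := h3
      by_cases hae : a = e
      · rw [← hae, h3', key a (Or.inl h3') f (by rw [hae]; exact hfe.symm)]
        norm_num
      · by_cases haf : a = f
        · rw [← haf, h3', key a (Or.inl h3') e hae]
          norm_num
        · rw [key a (Or.inl h3') e hae, key a (Or.inl h3') f haf]
          norm_num
    · have hae : a ≠ e := by
        rintro rfl
        exact ha he
      have haf : a ≠ f := by
        rintro rfl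
        exact ha hf
      rw [key a (Or.inr (by rw [h3]; norm_num)) e hae,
        key a (Or.inr (by rw [h3]; norm_num)) f haf]
      norm_num
    · rw [ord_sub_inf U (by rw [h3]; norm_num) e, ord_sub_inf U (by rw [h3]; norm_num) f, h3]
      norm_num)
  have hy0 : y ≠ 0 := by
    rintro rfl
    rw [zero_pow (by norm_num)] at hy
    exact hg0 hy.symm
  have hoy : W.ord y = 1 := by
    have h3 := congrArg W.ord hy
    rw [W.ord_pow, W.ord_mul (xsub_ne h e) (xsub_ne h f), h1,
      ord_sub_zero W (a := e) (e := f) (by rw [h1]; norm_num) hfe.symm] at h3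
    push_cast at h3
    omega
  have hoy' : W'.ord y = 0 := by
    have h3 := congrArg W'.ord hy
    rw [W'.ord_pow, W'.ord_mul (xsub_ne h e) (xsub_ne h f),
      ord_sub_zero W' (a := e') (e := e) (by rw [h1']; norm_num) (Ne.symm hee),
      ord_sub_zero W' (a := e') (e := f) (by rw [h1']; norm_num) hfe'.symm] at h3
    push_cast at h3
    omega
  have hγy : γ (y ^ 2) = y ^ 2 := by
    rw [hy, map_mul, map_sub, map_sub, γ.commutes, aut_const, aut_const]
  rcases sq_eq_cases hγy with h3 | h3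
  · have h4 := keyA hR hS h hγ1 hζ hY hW hy0 h3
    rw [hoy] at h4
    have h5 : (2 : ℤ) ∣ 1 := h4
    norm_num at h5
  · have h4 := keyA hR hS h hγ1 hζ hY hW' (mul_ne_zero hy0 (inv_ne_zero hY0))
      (by rw [map_mul, map_inv₀, h3, hY', inv_neg, neg_mul_neg])
    rw [W'.ord_mul hy0 (inv_ne_zero hY0), W'.ord_inv, hoy', h2'] at h4
    have h5 : (2 : ℤ) ∣ 0 + -1 := h4
    norm_num at h5

/-- a third fixed place -/
theorem third_place [hℓ : Fact (Nat.Prime 2)] (hT : S_T1) (hR : S_RES) (hS : S_STAB)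
    (hE : S_EXF) (hC : S_CONJ) (h : Cov 2 κ R M x B Y)
    {γ : M ≃ₐ[R] M} (hγ : γ ^ 2 = 1) (hγ1 : γ ≠ 1) {W W' : Place κ M} (hW : Fixes W γ)
    (hW' : Fixes W' γ) (hne : W ≠ W') :
    ∃ W'' : Place κ M, Fixes W'' γ ∧ W ≠ W'' ∧ W' ≠ W'' := by
  have i0 := h.gal
  obtain ⟨e, he, h1, h1'⟩ := same_point hR hS h hγ1 hW hW'
  have hag := agree_R h W W' (by rw [h1]; norm_num) (by rw [h1, h1'])
  have hcomap : W.O.comap (algebraMap R M) = W'.O.comap (algebraMap R M) := by
    ext r
    rw [ValuationSubring.mem_comap, ValuationSubring.mem_comap, Place.mem_O, Place.mem_O]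
    unfold Place.Reg
    rw [hag]
  obtain ⟨δ0, hδ0⟩ := hC R M W.O W'.O hcomap
  have hWδ0 : W' = pl W δ0 := by
    apply Place.ext_O
    ext z
    rw [hδ0, Place.mem_O, Place.mem_O]
    by_cases hz0 : z = 0
    · rw [hz0, map_zero]
      exact ⟨fun _ => (pl W δ0).reg_zero, fun _ => W.reg_zero⟩
    · rw [(pl W δ0).reg_iff hz0, W.reg_iff ((_root_.map_ne_zero δ0).mpr hz0)]
      rfl
  obtain ⟨ζ, hζ, hY⟩ := zeta_Y hS h hγ1 hW
  obtain ⟨⟨e1, -, -, hY1⟩, hYne⟩ := above_M hS h hγ1 hW
  have hζ1 : ζ = -1 := by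
    have h3 : ζ ^ 2 = 1 := hζ.pow_eq_one
    rcases sq_eq_one_cases h3 with h4 | h4
    · exact absurd h4 (hζ.ne_one (by norm_num))
    · exact h4
  have hY' : γ Y = -Y := by rw [hY, hζ1, map_neg, map_one, neg_one_mul]
  have hYsq : ∀ g : M ≃ₐ[R] M, g Y = Y ∨ g Y = -Y := by
    intro g
    apply sq_eq_cases
    rw [h.eqn, map_prod]
    apply Finset.prod_congr rfl
    intro e _
    rw [map_sub, g.commutes, aut_const]
  have hγp : pl W γ = W := (fixes_iff W γ).mp hW
  have hγp' : pl W' γ = W' := (fixes_iff W' γ).mp hW'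
  -- the stabiliser of `W`
  have hstab : ∀ g : M ≃ₐ[R] M, pl W g = W → g = 1 ∨ g = γ := by
    intro g hg
    rcases hYsq g with h3 | h3
    · left
      exact stab_triv hS h.rat W g ((fixes_iff W g).mpr hg) hY1 h3
    · right
      have h4 : g * γ = 1 := by
        refine stab_triv hS h.rat W (g * γ) ((fixes_iff W _).mpr ?_) hY1 ?_
        · rw [pl_mul, hg, hγp]
        · rw [AlgEquiv.mul_apply, hY', map_neg, h3, neg_neg]
      have h5 : γ * γ = 1 := by rw [← sq]; exact hγ
      exact mul_right_cancel (h4.trans h5.symm)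
  -- choose `δ` with `δ Y = Y`
  obtain ⟨δ, hWδ, hδY⟩ : ∃ δ : M ≃ₐ[R] M, W' = pl W δ ∧ δ Y = Y := by
    rcases hYsq δ0 with h3 | h3
    · exact ⟨δ0, hWδ0, h3⟩
    · refine ⟨δ0 * γ, ?_, ?_⟩
      · rw [pl_mul, ← hWδ0, hγp']
      · rw [AlgEquiv.mul_apply, hY', map_neg, h3, neg_neg]
  have hcomm : δ * γ = γ * δ := by
    have h3 : pl W (δ * γ * δ⁻¹) = W := by
      rw [pl_mul, pl_mul, ← hWδ, hγp', hWδ, ← pl_mul, mul_inv_cancel, pl_one]
    rcases hstab _ h3 with h4 | h4
    · exfalso
      apply hγ1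
      have h5 : δ * γ = δ := by
        rw [mul_inv_eq_one] at h4
        exact h4
      exact mul_eq_left.mp h5
    · rw [mul_inv_eq_iff_eq_mul] at h4
      exact h4
  have hδ1 : δ ≠ 1 := by
    rintro rfl
    rw [pl_one] at hWδ
    exact hne hWδ.symm
  have hδ2 : δ ^ 2 ≠ 1 := by
    intro h3
    obtain ⟨U, hU⟩ := hE 2 κ R M x B Y h δ h3 hδ1
    exact (above_M hS h hδ1 hU).2 hδY
  refine ⟨pl W (δ ^ 2), ?_, ?_, ?_⟩
  · rw [fixes_iff, ← pl_mul]
    have h3 : δ ^ 2 * γ = γ * δ ^ 2 := by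
      rw [sq, mul_assoc, hcomm, ← mul_assoc, hcomm, mul_assoc]
    rw [h3, pl_mul, hγp]
  · intro h3
    rcases hstab _ h3.symm with h4 | h4
    · exact hδ2 h4
    · apply hYne
      rw [← h4, sq, AlgEquiv.mul_apply, hδY, hδY]
  · intro h3
    rw [sq, pl_mul, ← hWδ] at h3
    have h4 : plE δ W = plE δ W' := by
      rw [plE_apply, plE_apply, ← hWδ]
      exact h3
    exact hne ((plE δ).injective h4)

end third

/-- **an element of order `ℓ` fixes only one place** -/
theorem unq : S_T1 → S_RES → S_STAB → S_EXF → S_CONJ → S_UNQ := by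
  intro hT hR hS hE hC ℓ hℓ κ R M _ _ _ _ _ _ _ _ _ x B Y h γ hγ hγ1 W W' hW hW'
  classical
  have i0 := h.gal
  by_contra hne
  obtain ⟨ζ, hζ, hY⟩ := zeta_Y hS h hγ1 hW
  have hsep : ∀ U V : Place κ M, U ≠ V → ∃ z : M, U.ord z ≠ V.ord z := by
    intro U V hUV
    by_contra hcon
    push Not at hcon
    exact hUV (Place.ext (funext hcon))
  obtain ⟨z1, hz1⟩ := hsep W W' hne
  by_cases hℓ2 : ℓ = 2
  · subst hℓ2
    obtain ⟨W'', hW'', hne1, hne2⟩ := third_place hT hR hS hE hC h hγ hγ1 hW hW' hne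
    obtain ⟨z2, hz2⟩ := hsep W W'' hne1
    obtain ⟨z3, hz3⟩ := hsep W' W'' hne2
    obtain ⟨N, hN, hmem⟩ := exists_lev h.pow {Y, z1, z2, z3}
    have i1 := hN.fin
    have i2 := hN.gal
    have i3 : IsFF κ N := h.rat.isFF
    have hYN : Y ∈ N := hmem Y (by simp)
    have hres := (hR 2 κ R M x B Y h N hN.fin hYN).1
    obtain ⟨w, hw⟩ := hres W
    obtain ⟨w', hw'⟩ := hres W'
    obtain ⟨w'', hw''⟩ := hres W''
    have hww' : w ≠ w' := by
      rintro rfl
      apply hz1
      rw [hw ⟨z1, hmem z1 (by simp)⟩, hw' ⟨z1, hmem z1 (by simp)⟩]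
    have hww'' : w ≠ w'' := by
      rintro rfl
      apply hz2
      rw [hw ⟨z2, hmem z2 (by simp)⟩, hw'' ⟨z2, hmem z2 (by simp)⟩]
    have hw'w'' : w' ≠ w'' := by
      rintro rfl
      apply hz3
      rw [hw' ⟨z3, hmem z3 (by simp)⟩, hw'' ⟨z3, hmem z3 (by simp)⟩]
    have hfix : ∀ (U : Place κ M) (u : Place κ N), Fixes U γ → (∀ z : N, U.ord (z : M) = u.ord z) →
        pl u (γ.restrictNormal N) = u := by
      intro U u hU hu
      ext z
      rw [pl_ord, ← hu, ← hu]
      have : ((γ.restrictNormal N z : N) : M) = γ (z : M) := coe_pow_restrict γ 1 z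
      rw [this]
      exact hU z
    have hinv : ∀ u : Place κ N, pl u (γ.restrictNormal N) = u → ∀ v,
        (Finsupp.single u (1 : ℤ)) (pl v (γ.restrictNormal N)) = (Finsupp.single u (1 : ℤ)) v := by
      intro u hu v
      rw [Finsupp.single_apply, Finsupp.single_apply]
      have : u = pl v (γ.restrictNormal N) ↔ u = v := by
        constructor
        · intro h3
          rw [← hu] at h3
          exact (plE (γ.restrictNormal N)).injective h3
        · rintro rfl
          exact hu.symm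
      simp only [this]
    obtain ⟨j, hj⟩ := main_lemma hT hR hS h hγ hγ1 hζ hY hN hYN
      (Finsupp.single w 1 + Finsupp.single w'' 1) (by
        intro v
        rw [Finsupp.add_apply, Finsupp.add_apply, hinv w (hfix W w hW hw),
          hinv w'' (hfix W'' w'' hW'' hw'')]) (by
        rw [Finsupp.sum_add_index' (fun _ => rfl) (fun _ _ _ => rfl),
          Finsupp.sum_single_index rfl, Finsupp.sum_single_index rfl]
        norm_num)
    have h3 := hj W hW w hw
    have h4 := hj W' hW' w' hw'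
    rw [Finsupp.add_apply, Finsupp.single_eq_same, Finsupp.single_apply, if_neg hww''.symm] at h3
    rw [Finsupp.add_apply, Finsupp.single_apply, Finsupp.single_apply, if_neg hww',
      if_neg hw'w''.symm] at h4
    have h5 : (2 : ℤ) ∣ 1 + 0 - j := h3
    have h6 : (2 : ℤ) ∣ 0 + 0 - j := h4
    omega
  · obtain ⟨N, hN, hmem⟩ := exists_lev h.pow {Y, z1}
    have i1 := hN.fin
    have i2 := hN.gal
    have i3 : IsFF κ N := h.rat.isFF
    have hYN : Y ∈ N := hmem Y (by simp)
    have hres := (hR ℓ κ R M x B Y h N hN.fin hYN).1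
    obtain ⟨w, hw⟩ := hres W
    obtain ⟨w', hw'⟩ := hres W'
    have hww' : w ≠ w' := by
      rintro rfl
      apply hz1
      rw [hw ⟨z1, hmem z1 (by simp)⟩, hw' ⟨z1, hmem z1 (by simp)⟩]
    have hfix : ∀ (U : Place κ M) (u : Place κ N), Fixes U γ → (∀ z : N, U.ord (z : M) = u.ord z) →
        pl u (γ.restrictNormal N) = u := by
      intro U u hU hu
      ext z
      rw [pl_ord, ← hu, ← hu]
      have : ((γ.restrictNormal N z : N) : M) = γ (z : M) := coe_pow_restrict γ 1 z
      rw [this]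
      exact hU z
    have hinv : ∀ (u : Place κ N) (c : ℤ), pl u (γ.restrictNormal N) = u → ∀ v,
        (Finsupp.single u c) (pl v (γ.restrictNormal N)) = (Finsupp.single u c) v := by
      intro u c hu v
      rw [Finsupp.single_apply, Finsupp.single_apply]
      have : u = pl v (γ.restrictNormal N) ↔ u = v := by
        constructor
        · intro h3
          rw [← hu] at h3
          exact (plE (γ.restrictNormal N)).injective h3
        · rintro rfl
          exact hu.symm
      simp only [this]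
    obtain ⟨j, hj⟩ := main_lemma hT hR hS h hγ hγ1 hζ hY hN hYN
      (Finsupp.single w 1 + Finsupp.single w' (-1)) (by
        intro v
        rw [Finsupp.add_apply, Finsupp.add_apply, hinv w 1 (hfix W w hW hw),
          hinv w' (-1) (hfix W' w' hW' hw')]) (by
        rw [Finsupp.sum_add_index' (fun _ => rfl) (fun _ _ _ => rfl),
          Finsupp.sum_single_index rfl, Finsupp.sum_single_index rfl]
        norm_num)
    have h3 := hj W hW w hw
    have h4 := hj W' hW' w' hw'
    rw [Finsupp.add_apply, Finsupp.single_eq_same, Finsupp.single_apply, if_neg hww'.symm] at h3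
    rw [Finsupp.add_apply, Finsupp.single_eq_same, Finsupp.single_apply, if_neg hww'] at h4
    have h5 : (ℓ : ℤ) ∣ 2 := by
      have h6 : (2 : ℤ) = (1 + 0 - j) - (0 + -1 - j) := by ring
      rw [h6]
      exact dvd_sub h3 h4
    have h6 : ℓ ∣ 2 := by exact_mod_cast h5
    rcases (Nat.dvd_prime Nat.prime_two).mp h6 with h7 | h7
    · exact hℓ.out.one_lt.ne' h7
    · exact hℓ2 h7

end Pool.Agent.Y31.PS
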