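import Pool.Agent.Y157.PS.Stm

/-!
# Levels and places: common lemmas (for MP_2f3286_ag)
-/

set_option autoImplicit false
set_option linter.all false

open Polynomial FF

namespace Pool.Agent.Y31.PS

open Pool.Agent.Y157.PS

section levels

variable {ℓ : ℕ} [hℓ : Fact ℓ.Prime] {R M : Type} [Field R] [Field M] [Algebra R M]

/-- an automorphism acts on a level with order a power of `ℓ` -/
theorem lev_pow {N : IntermediateField R M} (hN : Lev ℓ N) (γ : M ≃ₐ[R] M) :
    ∃ a : ℕ, ∀ z ∈ N, (γ ^ (ℓ ^ a)) z = z := by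
  have := hN.fin
  have := hN.gal
  obtain ⟨m, hm⟩ := hN.card
  refine ⟨m, fun z hz => ?_⟩
  have h1 : (AlgEquiv.restrictNormalHom N γ) ^ (ℓ ^ m) = 1 := by
    rw [← hm, ← IsGalois.card_aut_eq_finrank R N]
    exact pow_card_eq_one'
  rw [← map_pow] at h1
  have h2 := AlgEquiv.restrictNormal_commutes (γ ^ (ℓ ^ m)) N ⟨z, hz⟩
  have h3 : (γ ^ (ℓ ^ m)).restrictNormal N = 1 := h1
  rw [h3] at h2
  exact h2.symm

theorem lev_sup [IsGalois R M] {N N' : IntermediateField R M} (hN : Lev ℓ N) (hN' : Lev ℓ N') :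
    Lev ℓ (N ⊔ N' : IntermediateField R M) := by
  have i1 := hN.fin
  have i2 := hN.gal
  have i3 := hN'.fin
  have i4 := hN'.gal
  have hfin : FiniteDimensional R (N ⊔ N' : IntermediateField R M) :=
    IntermediateField.finiteDimensional_sup N N'
  have hnor : Normal R (N ⊔ N' : IntermediateField R M) := inferInstance
  have hsep : Algebra.IsSeparable R (N ⊔ N' : IntermediateField R M) :=
    inferInstance
  have hgal : IsGalois R (N ⊔ N' : IntermediateField R M) := {}
  refine ⟨hfin, hgal, ?_⟩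
  rw [← IsGalois.card_aut_eq_finrank R]
  have hp : IsPGroup ℓ ((N ⊔ N' : IntermediateField R M) ≃ₐ[R] (N ⊔ N' : IntermediateField R M)) := by
    intro σ
    obtain ⟨a, ha⟩ := lev_pow hN (σ.liftNormal M)
    obtain ⟨b, hb⟩ := lev_pow hN' (σ.liftNormal M)
    refine ⟨a + b, ?_⟩
    set γ : M ≃ₐ[R] M := σ.liftNormal M with hγ
    have h1 : ∀ z ∈ N, (γ ^ (ℓ ^ (a + b))) z = z := by
      intro z hz
      rw [pow_add, pow_mul]
      have : ∀ k : ℕ, ((γ ^ ℓ ^ a) ^ k) z = z := by
        intro k
        induction k with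
        | zero => rfl
        | succ k ih => rw [pow_succ, AlgEquiv.mul_apply, ha z hz, ih]
      exact this _
    have h2 : ∀ z ∈ N', (γ ^ (ℓ ^ (a + b))) z = z := by
      intro z hz
      rw [pow_add, mul_comm, pow_mul]
      have : ∀ k : ℕ, ((γ ^ ℓ ^ b) ^ k) z = z := by
        intro k
        induction k with
        | zero => rfl
        | succ k ih => rw [pow_succ, AlgEquiv.mul_apply, hb z hz, ih]
      exact this _
    have h3 : ∀ z ∈ (N ⊔ N' : IntermediateField R M), (γ ^ (ℓ ^ (a + b))) z = z := by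
      intro z hz
      have h4 : (N ⊔ N' : IntermediateField R M) ≤
          IntermediateField.fixedField (Subgroup.zpowers (γ ^ (ℓ ^ (a + b)))) := by
        apply sup_le
        · intro w hw
          rintro ⟨g, hg⟩
          obtain ⟨k, rfl⟩ := Subgroup.mem_zpowers_iff.mp hg
          show ((γ ^ (ℓ ^ (a + b))) ^ k) w = w
          have h5 := h1 w hw
          have h6 : (γ ^ (ℓ ^ (a + b))) ∈ MulAction.stabilizer (M ≃ₐ[R] M) w := h5
          exact (MulAction.stabilizer (M ≃ₐ[R] M) w).zpow_mem h6 k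
        · intro w hw
          rintro ⟨g, hg⟩
          obtain ⟨k, rfl⟩ := Subgroup.mem_zpowers_iff.mp hg
          show ((γ ^ (ℓ ^ (a + b))) ^ k) w = w
          have h5 := h2 w hw
          have h6 : (γ ^ (ℓ ^ (a + b))) ∈ MulAction.stabilizer (M ≃ₐ[R] M) w := h5
          exact (MulAction.stabilizer (M ≃ₐ[R] M) w).zpow_mem h6 k
      exact h4 hz ⟨_, Subgroup.mem_zpowers _⟩
    have h7 : ∀ (k : ℕ) (z : (N ⊔ N' : IntermediateField R M)),
        (((σ ^ k) z : (N ⊔ N' : IntermediateField R M)) : M) = (γ ^ k) (z : M) := by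
      intro k
      induction k with
      | zero => intro z; rfl
      | succ k ih =>
        intro z
        rw [pow_succ, AlgEquiv.mul_apply, ih, pow_succ, AlgEquiv.mul_apply]
        congr 1
        exact (AlgEquiv.liftNormal_commutes σ M z).symm
    ext z
    rw [h7, h3 _ z.2]
    rfl
  obtain ⟨n, hn⟩ := (IsPGroup.iff_card).mp hp
  exact ⟨n, hn⟩

theorem exists_lev [IsGalois R M]
    (hpow : ∀ z : M, ∃ N : IntermediateField R M, z ∈ N ∧ Lev ℓ N) (s : Finset M) :
    ∃ N : IntermediateField R M, Lev ℓ N ∧ ∀ z ∈ s, z ∈ N := by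
  classical
  induction s using Finset.induction with
  | empty =>
    obtain ⟨N, -, hN⟩ := hpow 0
    exact ⟨N, hN, fun z hz => absurd hz (Finset.notMem_empty z)⟩
  | insert a s ha ih =>
    obtain ⟨N, hN, hs⟩ := ih
    obtain ⟨N', haN, hN'⟩ := hpow a
    refine ⟨N ⊔ N', lev_sup hN hN', ?_⟩
    intro z hz
    rcases Finset.mem_insert.mp hz with h | h
    · rw [h]; exact (le_sup_right : N' ≤ N ⊔ N') haN
    · exact (le_sup_left : N ≤ N ⊔ N') (hs z h)

end levels

section places

variable {κ : Type} [Field κ] [IsAlgClosed κ] [CharZero κ]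

theorem deg_one {N : Type} [Field N] [Algebra κ N] [IsFF κ N] (w : Place κ N) : w.deg = 1 := by
  have h1 : Function.Bijective (algebraMap κ w.RF) :=
    IsAlgClosed.algebraMap_bijective_of_isIntegral
  unfold Place.deg
  exact (finrank_eq_one_iff_of_nonzero' (1 : w.RF) one_ne_zero).mpr fun v => by
    obtain ⟨c, hc⟩ := h1.2 v
    exact ⟨c, by rw [Algebra.smul_def, mul_one, hc]⟩

theorem residue_N {N : Type} [Field N] [Algebra κ N] [IsFF κ N] (w : Place κ N) {s : N}
    (hs0 : s ≠ 0) (hs : w.ord s = 0) :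
    ∃ c : κ, c ≠ 0 ∧ (s - algebraMap κ N c = 0 ∨ 0 < w.ord (s - algebraMap κ N c)) := by
  have h1 : Function.Bijective (algebraMap κ w.RF) :=
    IsAlgClosed.algebraMap_bijective_of_isIntegral
  obtain ⟨c, hc⟩ := h1.2 (w.red s)
  have hr : w.Reg s := Or.inr hs.ge
  have h2 : w.red (s - algebraMap κ N c) = 0 := by
    rw [w.red_sub hr (w.reg_const c), ← hc, Place.algebraMap_RF, sub_self]
  have hr2 : w.Reg (s - algebraMap κ N c) := by
    rw [sub_eq_add_neg]
    exact w.reg_add hr (w.reg_neg (w.reg_const c))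
  refine ⟨c, ?_, (w.red_eq_zero_iff hr2).mp h2⟩
  rintro rfl
  rw [map_zero] at hc
  exact w.red_ne_zero hs0 hs hc.symm

/-- the sum of the orders of an element of a function field is zero -/
theorem sum_ord {N : Type} [Field N] [Algebra κ N] [IsFF κ N] (z : N) :
    (divisor κ z).sum (fun _ n => n) = 0 := by
  have h1 := ddeg_divisor (k := κ) z
  unfold ddeg at h1
  rw [← h1]
  apply Finsupp.sum_congr
  intro w _
  rw [deg_one w]
  simp

/-- roots of constants are constants -/
theorem root_const {M : Type} [Field M] [Algebra κ M] {n : ℕ} (hn : 0 < n) {ξ : M} {c : κ}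
    (h : ξ ^ n = algebraMap κ M c) : ∃ d : κ, ξ = algebraMap κ M d ∧ d ^ n = c := by
  obtain ⟨e, he⟩ := IsAlgClosed.exists_pow_nat_eq c hn
  by_cases hc : c = 0
  · refine ⟨0, ?_, by rw [zero_pow hn.ne', hc]⟩
    rw [hc, map_zero] at h
    rw [map_zero]
    exact pow_eq_zero_iff hn.ne' |>.mp h
  · have he0 : e ≠ 0 := by
      rintro rfl
      rw [zero_pow hn.ne'] at he
      exact hc he.symm
    have : NeZero n := ⟨hn.ne'⟩
    obtain ⟨ζ, hζ⟩ := HasEnoughRootsOfUnity.exists_primitiveRoot κ n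
    have hζM : IsPrimitiveRoot (algebraMap κ M ζ) n := hζ.map_of_injective (algebraMap κ M).injective
    have he0' : algebraMap κ M e ≠ 0 := by
      simpa using he0
    have h2 : (ξ / algebraMap κ M e) ^ n = 1 := by
      rw [div_pow, h, ← map_pow, he, div_self]
      simpa using hc
    obtain ⟨i, -, hi⟩ := hζM.eq_pow_of_pow_eq_one h2
    refine ⟨ζ ^ i * e, ?_, ?_⟩
    · rw [map_mul, map_pow, hi, div_mul_cancel₀ _ he0']
    · rw [mul_pow, he, ← pow_mul, mul_comm i n, pow_mul, hζ.pow_eq_one, one_pow, one_mul]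

variable {R : Type} [Field R] [Algebra κ R]

/-- algebraic extensions of `κ(x)` -/
theorem alg_adjoin {x : R} (hx : RatF κ x) {K : Type} [Field K] [Algebra κ K] [Algebra R K]
    [IsScalarTower κ R K] [Algebra.IsAlgebraic R K] :
    Algebra.IsAlgebraic (IntermediateField.adjoin κ {algebraMap R K x}) K := by
  have h2 : ∀ z : R, algebraMap R K z ∈ IntermediateField.adjoin κ {algebraMap R K x} := by
    intro z
    have h3 : z ∈ IntermediateField.adjoin κ {x} := by rw [hx.gen]; trivial
    have h4 : (IntermediateField.adjoin κ {x}).map (IsScalarTower.toAlgHom κ R K) =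
        IntermediateField.adjoin κ {algebraMap R K x} := by
      rw [IntermediateField.adjoin_map, Set.image_singleton]; rfl
    rw [← h4]
    exact ⟨z, h3, rfl⟩
  let L := IntermediateField.adjoin κ {algebraMap R K x}
  let i : R →+* L := (algebraMap R K).codRestrict L.toSubfield.toSubring h2
  letI : Algebra R L := i.toAlgebra
  have : IsScalarTower R L K := IsScalarTower.of_algebraMap_eq fun z => rfl
  exact Algebra.IsAlgebraic.tower_top (K := R) L

/-- `S_STAB` for algebraic extensions of `κ(x)` -/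
theorem stab_triv (hS : S_STAB) {x : R} (hx : RatF κ x) {K : Type} [Field K] [Algebra κ K]
    [Algebra R K] [IsScalarTower κ R K] [Algebra.IsAlgebraic R K] (W : Place κ K)
    (γ : K ≃ₐ[R] K) (hW : Fixes W γ) {π : K} (h1 : W.ord π = 1) (h2 : γ π = π) : γ = 1 := by
  have h3 := hS κ K (algebraMap R K x) (alg_adjoin hx) W (γ.restrictScalars κ) hW π h1 h2
  ext z
  exact congrArg (fun g : K ≃ₐ[κ] K => g z) h3

end places

end Pool.Agent.Y31.PS
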