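import Pool.Agent.Y31.PS.Common

/-!
# Automorphisms acting on places, resolvents, Hilbert 90 (for MP_2f3286_ag)
-/

set_option autoImplicit false
set_option linter.all false

open Polynomial FF

namespace Pool.Agent.Y31.PS

open Pool.Agent.Y157.PS

section act

variable {κ R K : Type} [Field κ] [Field R] [Field K] [Algebra κ R] [Algebra R K] [Algebra κ K]
  [IsScalarTower κ R K]

theorem aut_const (g : K ≃ₐ[R] K) (c : κ) : g (algebraMap κ K c) = algebraMap κ K c := by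
  rw [IsScalarTower.algebraMap_apply κ R K, g.commutes]

/-- the place `w ∘ g` -/
def pl (w : Place κ K) (g : K ≃ₐ[R] K) : Place κ K where
  ord f := w.ord (g f)
  ord_zero := by rw [map_zero, w.ord_zero]
  ord_mul := by
    intro f f' hf hf'
    rw [map_mul, w.ord_mul ((map_ne_zero g).mpr hf) ((map_ne_zero g).mpr hf')]
  ord_add := by
    intro f f' hf hf' hff
    rw [map_add]
    exact w.ord_add ((map_ne_zero g).mpr hf) ((map_ne_zero g).mpr hf')
      (by rw [← map_add]; exact (map_ne_zero g).mpr hff)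
  ord_const := by
    intro c hc
    rw [aut_const, w.ord_const hc]
  surj := by
    obtain ⟨t, ht0, ht⟩ := w.surj
    exact ⟨g.symm t, (map_ne_zero g.symm).mpr ht0, by rw [g.apply_symm_apply, ht]⟩

theorem pl_ord (w : Place κ K) (g : K ≃ₐ[R] K) (z : K) : (pl w g).ord z = w.ord (g z) := rfl

theorem pl_mul (w : Place κ K) (g h : K ≃ₐ[R] K) : pl w (g * h) = pl (pl w g) h := by
  ext z
  rfl

theorem pl_one (w : Place κ K) : pl w (1 : K ≃ₐ[R] K) = w := by
  ext z
  rfl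

theorem fixes_iff (w : Place κ K) (g : K ≃ₐ[R] K) : Fixes w g ↔ pl w g = w := by
  constructor
  · intro h
    ext z
    exact h z
  · intro h z
    exact congrArg (fun v : Place κ K => v.ord z) h

theorem fixes_pow {w : Place κ K} {g : K ≃ₐ[R] K} (h : Fixes w g) (n : ℕ) : Fixes w ⇑(g ^ n) := by
  rw [fixes_iff] at h ⊢
  induction n with
  | zero => rw [pow_zero, pl_one]
  | succ n ih => rw [pow_succ, pl_mul, ih, h]

/-- the permutation of the places -/
def plE (g : K ≃ₐ[R] K) : Place κ K ≃ Place κ K where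
  toFun w := pl w g
  invFun w := pl w g⁻¹
  left_inv w := by
    show pl (pl w g) g⁻¹ = w
    rw [← pl_mul, mul_inv_cancel, pl_one]
  right_inv w := by
    show pl (pl w g⁻¹) g = w
    rw [← pl_mul, inv_mul_cancel, pl_one]

theorem plE_apply (g : K ≃ₐ[R] K) (w : Place κ K) : plE g w = pl w g := rfl

end act

section resolvent

variable {ℓ : ℕ} [hℓ : Fact ℓ.Prime] {R K : Type} [Field R] [Field K] [Algebra R K]

/-- independence of the powers of an automorphism of order `ℓ` -/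
theorem exists_resolvent (g : K ≃ₐ[R] K) (h1 : g ^ ℓ = 1) (h2 : g ≠ 1) (c : ℕ → K)
    (hc : c 0 ≠ 0) : ∃ y : K, ∑ i ∈ Finset.range ℓ, c i * (g ^ i) y ≠ 0 := by
  by_contra hcon
  push Not at hcon
  have hord : orderOf g = ℓ := orderOf_eq_prime h1 h2
  let φ : Fin ℓ → (K →* K) := fun i => ((g ^ (i : ℕ) : K ≃ₐ[R] K) : K →* K)
  have hφ : Function.Injective φ := by
    intro i j hij
    have h3 : g ^ (i : ℕ) = g ^ (j : ℕ) := by
      ext z
      exact congrArg (fun f : K →* K => f z) hij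
    have h4 := pow_injOn_Iio_orderOf (x := g) (by rw [hord]; exact i.2) (by rw [hord]; exact j.2) h3
    exact Fin.ext h4
  have hli : LinearIndependent K (fun i => (φ i : K → K)) :=
    (linearIndependent_monoidHom K K).comp φ hφ
  rw [Fintype.linearIndependent_iff] at hli
  have h5 := hli (fun i => c i) (by
    funext y
    rw [Finset.sum_apply, Pi.zero_apply, ← hcon y, Finset.sum_range]
    rfl) ⟨0, hℓ.out.pos⟩
  exact hc h5

/-- an eigenvector -/
theorem exists_eigen (g : K ≃ₐ[R] K) (h1 : g ^ ℓ = 1) (h2 : g ≠ 1) (ζ : K) (hζ : ζ ^ ℓ = 1)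
    (hg : g ζ = ζ) : ∃ z : K, z ≠ 0 ∧ g z = ζ * z := by
  have hζ0 : ζ ≠ 0 := by
    rintro rfl
    rw [zero_pow hℓ.out.ne_zero] at hζ
    exact zero_ne_one hζ
  obtain ⟨y, hy⟩ := exists_resolvent g h1 h2 (fun i => ζ⁻¹ ^ i) (by simp)
  refine ⟨_, hy, ?_⟩
  rw [map_sum, Finset.mul_sum]
  have h3 : ∀ i, g (ζ⁻¹ ^ i * (g ^ i) y) = ζ * (ζ⁻¹ ^ (i + 1) * (g ^ (i + 1)) y) := by
    intro i
    rw [map_mul, map_pow, map_inv₀, hg, pow_succ' g, AlgEquiv.mul_apply, pow_succ]
    field_simp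
  simp only [h3]
  rw [← Finset.mul_sum, ← Finset.mul_sum]
  congr 1
  have h4 := Finset.sum_range_succ (fun i => ζ⁻¹ ^ i * (g ^ i) y) ℓ
  have h5 := Finset.sum_range_succ' (fun i => ζ⁻¹ ^ i * (g ^ i) y) ℓ
  rw [h4] at h5
  have h6 : ζ⁻¹ ^ ℓ * (g ^ ℓ) y = ζ⁻¹ ^ 0 * (g ^ 0) y := by
    rw [h1, inv_pow, hζ, pow_zero, pow_zero, inv_one]
  rw [h6] at h5
  exact (add_right_cancel h5).symm

theorem prod_shift (g : K ≃ₐ[R] K) (h1 : g ^ ℓ = 1) (z : K) (hz : z ≠ 0) :
    g (∏ i ∈ Finset.range ℓ, (g ^ i) z) = ∏ i ∈ Finset.range ℓ, (g ^ i) z := by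
  rw [map_prod]
  have h3 : ∀ i, g ((g ^ i) z) = (g ^ (i + 1)) z := by
    intro i
    rw [pow_succ', AlgEquiv.mul_apply]
  simp only [h3]
  have h4 := Finset.prod_range_succ (fun i => (g ^ i) z) ℓ
  have h5 := Finset.prod_range_succ' (fun i => (g ^ i) z) ℓ
  rw [h4, h1, pow_zero] at h5
  exact (mul_right_cancel₀ (by simpa using hz) h5).symm

/-- Hilbert 90 -/
theorem hilbert90 (g : K ≃ₐ[R] K) (h1 : g ^ ℓ = 1) (h2 : g ≠ 1) (v : K)
    (hv : ∏ i ∈ Finset.range ℓ, (g ^ i) v = 1) : ∃ t : K, t ≠ 0 ∧ v * g t = t := by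
  obtain ⟨y, hy⟩ := exists_resolvent g h1 h2 (fun i => ∏ j ∈ Finset.range i, (g ^ j) v) (by simp)
  refine ⟨_, hy, ?_⟩
  rw [map_sum, Finset.mul_sum]
  have h3 : ∀ i, v * g ((∏ j ∈ Finset.range i, (g ^ j) v) * (g ^ i) y) =
      (∏ j ∈ Finset.range (i + 1), (g ^ j) v) * (g ^ (i + 1)) y := by
    intro i
    rw [map_mul, map_prod, Finset.prod_range_succ', pow_zero, AlgEquiv.one_apply, pow_succ' g i,
      AlgEquiv.mul_apply]
    have h4 : ∀ j, g ((g ^ j) v) = (g ^ (j + 1)) v := by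
      intro j
      rw [pow_succ', AlgEquiv.mul_apply]
    simp only [h4]
    ring
  simp only [h3]
  have h4 := Finset.sum_range_succ (fun i => (∏ j ∈ Finset.range i, (g ^ j) v) * (g ^ i) y) ℓ
  have h5 := Finset.sum_range_succ' (fun i => (∏ j ∈ Finset.range i, (g ^ j) v) * (g ^ i) y) ℓ
  rw [h4] at h5
  have h6 : (∏ j ∈ Finset.range ℓ, (g ^ j) v) * (g ^ ℓ) y =
      (∏ j ∈ Finset.range 0, (g ^ j) v) * (g ^ 0) y := by
    rw [hv, h1, pow_zero, Finset.prod_range_zero]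
  rw [h6] at h5
  exact (add_right_cancel h5).symm

end resolvent

section cov

variable {ℓ : ℕ} [hℓ : Fact ℓ.Prime] {κ R M : Type} [Field κ] [IsAlgClosed κ] [CharZero κ]
  [Field R] [Field M] [Algebra κ R] [Algebra R M] [Algebra κ M] [IsScalarTower κ R M] {x : R}
  {B : Finset κ} {Y : M}

/-- a fixed place of `M` is above `B` -/
theorem above_M (hS : S_STAB) (h : Cov ℓ κ R M x B Y) {γ : M ≃ₐ[R] M} (hγ : γ ≠ 1)
    {W : Place κ M} (hW : Fixes W γ) :
    (∃ e ∈ B, W.ord (algebraMap R M x - algebraMap κ M e) = ℓ ∧ W.ord Y = 1) ∧ γ Y ≠ Y := by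
  have := h.gal
  have h1 : ∃ e ∈ B, W.ord (algebraMap R M x - algebraMap κ M e) = ℓ ∧ W.ord Y = 1 := by
    rcases h.loc' W with h1 | ⟨a, ha, h1⟩ | h1
    · exact h1
    · exfalso
      apply hγ
      exact stab_triv hS h.rat W γ hW h1 (by rw [map_sub, γ.commutes, aut_const])
    · exfalso
      apply hγ
      refine stab_triv hS h.rat W γ hW (π := (algebraMap R M x)⁻¹) ?_ ?_
      · rw [W.ord_inv, h1]; norm_num
      · rw [map_inv₀, γ.commutes]
  refine ⟨h1, fun h2 => ?_⟩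
  obtain ⟨e, -, -, h3⟩ := h1
  exact hγ (stab_triv hS h.rat W γ hW h3 h2)

/-- a fixed place of a level is above `B` -/
theorem above_N (hS : S_STAB) (hR : S_RES) (h : Cov ℓ κ R M x B Y) {N : IntermediateField R M}
    (hN : Lev ℓ N) (hY : Y ∈ N) {g : N ≃ₐ[R] N} (hg : g ≠ 1) {w : Place κ N} (hw : Fixes w g) :
    ∃ e ∈ B, w.ord (algebraMap R N x - algebraMap κ N e) = ℓ := by
  have i1 := hN.fin
  have i2 := hN.gal
  obtain ⟨W, hW⟩ := (hR ℓ κ R M x B Y h N hN.fin hY).2.1 w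
  have hc : ∀ a : κ, W.ord (algebraMap R M x - algebraMap κ M a) =
      w.ord (algebraMap R N x - algebraMap κ N a) := by
    intro a
    rw [← hW]
    rfl
  have hx : W.ord (algebraMap R M x) = w.ord (algebraMap R N x) := by
    rw [← hW]
    rfl
  rcases h.loc' W with ⟨e, he, h1, -⟩ | ⟨a, ha, h1⟩ | h1
  · exact ⟨e, he, by rw [← hc, h1]⟩
  · exfalso
    rw [hc] at h1
    apply hg
    exact stab_triv hS h.rat w g hw h1 (by rw [map_sub, g.commutes, aut_const])
  · exfalso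
    rw [hx] at h1
    apply hg
    refine stab_triv hS h.rat w g hw (π := (algebraMap R N x)⁻¹) ?_ ?_
    · rw [w.ord_inv, h1]; norm_num
    · rw [map_inv₀, g.commutes]

end cov

end Pool.Agent.Y31.PS
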