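import Pool.Agent.Y31.PS.Exf

/-!
# An element of order `ℓ` fixes only one place (for MP_2f3286_ag)
-/

set_option autoImplicit false
set_option linter.all false

open Polynomial FF

namespace Pool.Agent.Y31.PS

open Pool.Agent.Y157.PS

section unq

variable {ℓ : ℕ} [hℓ : Fact ℓ.Prime] {κ R M : Type} [Field κ] [IsAlgClosed κ] [CharZero κ]
  [Field R] [Field M] [Algebra κ R] [Algebra R M] [Algebra κ M] [IsScalarTower κ R M] {x : R}
  {B : Finset κ} {Y : M}

/-- residues are constants -/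
theorem residue_M (hR : S_RES) (h : Cov ℓ κ R M x B Y) (W : Place κ M) {s : M} (hs0 : s ≠ 0)
    (hs : W.ord s = 0) :
    ∃ c : κ, c ≠ 0 ∧ (s - algebraMap κ M c = 0 ∨ 0 < W.ord (s - algebraMap κ M c)) := by
  classical
  have i0 := h.gal
  obtain ⟨N, hN, hmem⟩ := exists_lev h.pow {s, Y}
  have i1 := hN.fin
  have i3 : IsFF κ N := h.rat.isFF
  obtain ⟨w, hw⟩ := (hR ℓ κ R M x B Y h N hN.fin (hmem Y (by simp))).1 W
  have hsN : s ∈ N := hmem s (by simp)
  have h1 : (⟨s, hsN⟩ : N) ≠ 0 := fun h0 => hs0 (congrArg Subtype.val h0)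
  obtain ⟨c, hc0, hc⟩ := residue_N w h1 (by rw [← hw]; exact hs)
  refine ⟨c, hc0, ?_⟩
  rcases hc with hc | hc
  · left
    have := congrArg Subtype.val hc
    exact this
  · right
    rw [← hw] at hc
    exact hc

theorem zeta_Y (hS : S_STAB) (h : Cov ℓ κ R M x B Y) {γ : M ≃ₐ[R] M} (hγ1 : γ ≠ 1)
    {W : Place κ M} (hW : Fixes W γ) :
    ∃ ζ : κ, IsPrimitiveRoot ζ ℓ ∧ γ Y = algebraMap κ M ζ * Y := by
  obtain ⟨⟨e, -, -, hY1⟩, hY⟩ := above_M hS h hγ1 hW
  have hY0 : Y ≠ 0 := by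
    rintro rfl
    rw [W.ord_zero] at hY1
    exact zero_ne_one hY1
  have h1 : (γ Y / Y) ^ ℓ = algebraMap κ M 1 := by
    rw [div_pow, ← map_pow, h.eqn, map_prod, map_one]
    have : ∀ e ∈ B, γ (algebraMap R M x - algebraMap κ M e) =
        algebraMap R M x - algebraMap κ M e := by
      intro e _
      rw [map_sub, γ.commutes, aut_const]
    rw [Finset.prod_congr rfl this, ← h.eqn]
    exact div_self (pow_ne_zero _ hY0)
  obtain ⟨ζ, hζ, hζ1⟩ := root_const hℓ.out.pos h1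
  refine ⟨ζ, ?_, ?_⟩
  · have hne : ζ ≠ 1 := by
      rintro rfl
      apply hY
      rw [map_one, div_eq_one_iff_eq hY0] at hζ
      exact hζ
    rw [← orderOf_eq_prime hζ1 hne]
    exact IsPrimitiveRoot.orderOf ζ
  · rw [← hζ, div_mul_cancel₀ _ hY0]

/-- invariant elements have order divisible by `ℓ` at the fixed places -/
theorem keyA (hR : S_RES) (hS : S_STAB) (h : Cov ℓ κ R M x B Y) {γ : M ≃ₐ[R] M} (hγ1 : γ ≠ 1)
    {ζ : κ} (hζ : IsPrimitiveRoot ζ ℓ) (hY : γ Y = algebraMap κ M ζ * Y) {U : Place κ M}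
    (hU : Fixes U γ) {t : M} (ht0 : t ≠ 0) (ht : γ t = t) : (ℓ : ℤ) ∣ U.ord t := by
  obtain ⟨⟨e, -, -, hY1⟩, -⟩ := above_M hS h hγ1 hU
  have hY0 : Y ≠ 0 := by
    rintro rfl
    rw [U.ord_zero] at hY1
    exact zero_ne_one hY1
  have hζ0 : ζ ≠ 0 := hζ.ne_zero hℓ.out.ne_zero
  set n := U.ord t with hn
  set s : M := t * Y ^ (-n) with hs
  have hs0 : s ≠ 0 := mul_ne_zero ht0 (zpow_ne_zero _ hY0)
  have hso : U.ord s = 0 := by
    rw [hs, U.ord_mul ht0 (zpow_ne_zero _ hY0), U.ord_zpow, hY1, ← hn]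
    ring
  set a : κ := ζ ^ (-n) with ha
  have hγs : γ s = algebraMap κ M a * s := by
    rw [hs, map_mul, map_zpow₀, hY, ht, mul_zpow, ha, map_zpow₀]
    ring
  obtain ⟨c, hc0, hc⟩ := residue_M hR h U hs0 hso
  have hdiff : γ (s - algebraMap κ M c) - algebraMap κ M a * (s - algebraMap κ M c) =
      algebraMap κ M ((a - 1) * c) := by
    rw [map_sub γ, aut_const, hγs, map_mul, map_sub, map_one]
    ring
  have ha1 : a = 1 := by
    by_contra hne
    have hac : (a - 1) * c ≠ 0 := mul_ne_zero (sub_ne_zero.mpr hne) hc0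
    have hac' : algebraMap κ M ((a - 1) * c) ≠ 0 := by
      rw [_root_.map_ne_zero]
      exact hac
    rcases hc with hc | hc
    · rw [hc, map_zero, mul_zero, sub_zero] at hdiff
      exact hac' hdiff.symm
    · have hd0 : s - algebraMap κ M c ≠ 0 := by
        intro h0
        rw [h0, U.ord_zero] at hc
        exact lt_irrefl _ hc
      have ha0 : algebraMap κ M a ≠ 0 := by
        rw [_root_.map_ne_zero]
        exact zpow_ne_zero _ hζ0
      have h1 := U.ord_sub (f := γ (s - algebraMap κ M c))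
        (g := algebraMap κ M a * (s - algebraMap κ M c)) ((_root_.map_ne_zero γ).mpr hd0)
        (mul_ne_zero ha0 hd0) (by rw [hdiff]; exact hac')
      rw [hdiff, U.ord_const hac, hU, U.ord_mul ha0 hd0, U.ord_const (by
        exact zpow_ne_zero _ hζ0), zero_add, min_self] at h1
      omega
  rw [ha, hζ.zpow_eq_one_iff_dvd] at ha1
  exact (dvd_neg).mp ha1

/-- the values of an invariant divisor at the fixed places are congruent -/
theorem main_lemma (hT : S_T1) (hR : S_RES) (hS : S_STAB) (h : Cov ℓ κ R M x B Y)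
    {γ : M ≃ₐ[R] M} (hγ : γ ^ ℓ = 1) (hγ1 : γ ≠ 1) {ζ : κ} (hζ : IsPrimitiveRoot ζ ℓ)
    (hY : γ Y = algebraMap κ M ζ * Y) {N : IntermediateField R M} (hN : Lev ℓ N) [Normal R N]
    (hYN : Y ∈ N) (D : Place κ N →₀ ℤ) (hDinv : ∀ w, D (pl w (γ.restrictNormal N)) = D w)
    (hDsum : (ℓ : ℤ) ∣ D.sum (fun _ n => n)) :
    ∃ j : ℤ, ∀ U : Place κ M, Fixes U γ → ∀ w : Place κ N,
      (∀ z : N, U.ord (z : M) = w.ord z) → (ℓ : ℤ) ∣ D w - j := by
  have i0 := h.gal
  have i1 := hN.fin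
  have i2 := hN.gal
  have i3 : IsFF κ N := h.rat.isFF
  obtain ⟨z, hz0, hz⟩ := hT ℓ κ R N x h.rat hN.card D hDsum
  have hzM0 : (z : M) ≠ 0 := by simpa using hz0
  have hgz : ((γ.restrictNormal N z : N) : M) = γ (z : M) := coe_pow_restrict γ 1 z
  have hγz0 : γ (z : M) ≠ 0 := (_root_.map_ne_zero γ).mpr hzM0
  obtain ⟨v, hv⟩ := h.root (γ (z : M) / z) (div_ne_zero hγz0 hzM0) (by
    intro W
    obtain ⟨w, hw⟩ := (hR ℓ κ R M x B Y h N hN.fin hYN).1 W
    rw [W.ord_div hγz0 hzM0, ← hgz, hw, hw]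
    have h1 := hz w
    have h2 := hz (pl w (γ.restrictNormal N))
    rw [pl_ord, hDinv] at h2
    have h3 : w.ord (γ.restrictNormal N z) - w.ord z =
      (w.ord (γ.restrictNormal N z) - D w) - (w.ord z - D w) := by ring
    rw [h3]
    exact dvd_sub h2 h1)
  have hv0 : v ≠ 0 := by
    rintro rfl
    rw [zero_pow hℓ.out.ne_zero] at hv
    exact div_ne_zero hγz0 hzM0 hv.symm
  set P : M := ∏ i ∈ Finset.range ℓ, (γ ^ i) v with hP
  have hPl : P ^ ℓ = algebraMap κ M 1 := by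
    rw [hP, ← Finset.prod_pow]
    have h1 : ∀ i, ((γ ^ i) v) ^ ℓ = γ ((γ ^ i) (z : M)) / (γ ^ i) (z : M) := by
      intro i
      rw [← map_pow, hv, map_div₀]
      congr 1
      rw [← AlgEquiv.mul_apply, ← AlgEquiv.mul_apply, ← pow_succ, ← pow_succ']
    simp only [h1]
    rw [Finset.prod_div_distrib, ← map_prod, prod_shift γ hγ _ hzM0, map_one]
    exact div_self (Finset.prod_ne_zero_iff.mpr fun i _ => (_root_.map_ne_zero _).mpr hzM0)
  obtain ⟨d, hd, hdl⟩ := root_const hℓ.out.pos hPl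
  obtain ⟨a, -, ha⟩ := hζ.eq_pow_of_pow_eq_one hdl
  have hd0 : d ≠ 0 := by
    rintro rfl
    rw [zero_pow hℓ.out.ne_zero] at hdl
    exact zero_ne_one hdl
  obtain ⟨ξ, hξ⟩ := IsAlgClosed.exists_pow_nat_eq d⁻¹ hℓ.out.pos
  have hξ0 : ξ ≠ 0 := by
    rintro rfl
    rw [zero_pow hℓ.out.ne_zero] at hξ
    exact inv_ne_zero hd0 hξ.symm
  have hξM0 : algebraMap κ M ξ ≠ 0 := by rw [_root_.map_ne_zero]; exact hξ0
  have hnorm : ∏ i ∈ Finset.range ℓ, (γ ^ i) (algebraMap κ M ξ * v) = 1 := by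
    have h1 : ∀ i, (γ ^ i) (algebraMap κ M ξ * v) = algebraMap κ M ξ * (γ ^ i) v := by
      intro i
      rw [map_mul, aut_const]
    simp only [h1]
    rw [Finset.prod_mul_distrib, Finset.prod_const, Finset.card_range, ← hP, hd, ← map_pow, hξ,
      ← map_mul, inv_mul_cancel₀ hd0, map_one]
  obtain ⟨t, ht0, ht⟩ := hilbert90 γ hγ hγ1 _ hnorm
  have hY0 : Y ≠ 0 := by
    rintro rfl
    have h2 := h.eqn
    rw [zero_pow hℓ.out.ne_zero] at h2
    have h3 := Finset.prod_eq_zero_iff.mp h2.symm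
    obtain ⟨e, -, he⟩ := h3
    apply h.rat.trans
    have h4 : algebraMap R M (x - algebraMap κ R e) = 0 := by
      rw [map_sub, ← IsScalarTower.algebraMap_apply]
      exact he
    have h5 : x = algebraMap κ R e := by
      rw [← sub_eq_zero]
      exact (map_eq_zero _).mp h4
    rw [h5]
    exact isAlgebraic_algebraMap e
  have hζ0 : ζ ≠ 0 := hζ.ne_zero hℓ.out.ne_zero
  have hζM0 : algebraMap κ M ζ ≠ 0 := by rw [_root_.map_ne_zero]; exact hζ0
  have hfix : γ (z * t ^ ℓ * (Y ^ a)⁻¹) = z * t ^ ℓ * (Y ^ a)⁻¹ := by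
    have h1 : γ t = t / (algebraMap κ M ξ * v) := by
      rw [eq_div_iff (mul_ne_zero hξM0 hv0), mul_comm]
      exact ht
    have h2 : γ (z : M) = z * v ^ ℓ := by
      rw [hv, mul_div_cancel₀ _ hzM0]
    have h3 : (algebraMap κ M ξ) ^ ℓ = (algebraMap κ M ζ ^ a)⁻¹ := by
      rw [← map_pow, hξ, ← ha, map_inv₀, map_pow]
    rw [map_mul, map_mul, map_inv₀, map_pow, map_pow, h1, h2, hY, div_pow, mul_pow, mul_pow, h3]
    field_simp
  refine ⟨a, fun U hU w hw => ?_⟩
  have h1 := keyA hR hS h hγ1 hζ hY hU (mul_ne_zero (mul_ne_zero hzM0 (pow_ne_zero _ ht0))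
    (inv_ne_zero (pow_ne_zero _ hY0))) hfix
  obtain ⟨⟨e, -, -, hY1⟩, -⟩ := above_M hS h hγ1 hU
  rw [U.ord_mul (mul_ne_zero hzM0 (pow_ne_zero _ ht0)) (inv_ne_zero (pow_ne_zero _ hY0)),
    U.ord_mul hzM0 (pow_ne_zero _ ht0), U.ord_inv, U.ord_pow, U.ord_pow, hY1, hw, mul_one] at h1
  have h2 := hz w
  have h3 : D w - a = (w.ord z + ℓ * U.ord t + -(a : ℤ)) - (w.ord z - D w) - ℓ * U.ord t := by ring
  rw [h3]
  exact dvd_sub (dvd_sub h1 h2) (dvd_mul_right _ _)

/-! ### Third place -/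

theorem ord_sub_zero (W : Place κ M) {X : M} {a e : κ} (ha : 0 < W.ord (X - algebraMap κ M a))
    (hne : a ≠ e) : W.ord (X - algebraMap κ M e) = 0 := by
  have h1 : X - algebraMap κ M a ≠ 0 := by
    intro h0
    rw [h0, W.ord_zero] at ha
    exact lt_irrefl _ ha
  have hc : a - e ≠ 0 := sub_ne_zero.mpr hne
  have hc' : algebraMap κ M (a - e) ≠ 0 := by rw [_root_.map_ne_zero]; exact hc
  have h2 := (W.ord_add_eq hc' h1 (by rw [W.ord_const hc]; exact ha)).2
  rw [W.ord_const hc] at h2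
  rw [← h2]
  congr 1
  rw [map_sub]
  ring

theorem ord_sub_inf (W : Place κ M) {X : M} (hX : W.ord X < 0) (e : κ) :
    W.ord (X - algebraMap κ M e) = W.ord X := by
  by_cases he : e = 0
  · rw [he, map_zero, sub_zero]
  · have h1 : X ≠ 0 := by
      rintro rfl
      rw [W.ord_zero] at hX
      exact lt_irrefl _ hX
    have hc : -e ≠ 0 := neg_ne_zero.mpr he
    have hc' : algebraMap κ M (-e) ≠ 0 := by rw [_root_.map_ne_zero]; exact hc
    have h2 := (W.ord_add_eq h1 hc' (by rw [W.ord_const hc]; exact hX)).2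
    rw [map_neg, ← sub_eq_add_neg] at h2
    exact h2

theorem xsub_ne (h : Cov ℓ κ R M x B Y) (e : κ) : algebraMap R M x - algebraMap κ M e ≠ 0 := by
  intro he
  apply h.rat.trans
  have h4 : algebraMap R M (x - algebraMap κ R e) = 0 := by
    rw [map_sub, ← IsScalarTower.algebraMap_apply]
    exact he
  have h5 : x = algebraMap κ R e := by
    rw [← sub_eq_zero]
    exact (map_eq_zero _).mp h4
  rw [h5]
  exact isAlgebraic_algebraMap e

/-- places above the same point of the line agree on `R` -/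
theorem agree_R (h : Cov ℓ κ R M x B Y) (W W' : Place κ M) {e : κ}
    (hW : 0 < W.ord (algebraMap R M x - algebraMap κ M e))
    (hWW : W.ord (algebraMap R M x - algebraMap κ M e) =
      W'.ord (algebraMap R M x - algebraMap κ M e)) :
    ∀ r : R, W.ord (algebraMap R M r) = W'.ord (algebraMap R M r) := by
  have h1 : ∀ a : κ, W.ord (algebraMap R M x - algebraMap κ M a) =
      W'.ord (algebraMap R M x - algebraMap κ M a) := by
    intro a
    by_cases ha : e = a
    · rw [← ha]; exact hWW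
    · rw [ord_sub_zero W hW ha, ord_sub_zero W' (by rw [← hWW]; exact hW) ha]
  have h2 : ∀ s : Multiset κ,
      (s.map fun a => algebraMap R M x - algebraMap κ M a).prod ≠ 0 ∧
      W.ord (s.map fun a => algebraMap R M x - algebraMap κ M a).prod =
      W'.ord (s.map fun a => algebraMap R M x - algebraMap κ M a).prod := by
    intro s
    induction s using Multiset.induction with
    | empty => simp [W.ord_one, W'.ord_one]
    | cons a s ih =>
      rw [Multiset.map_cons, Multiset.prod_cons]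
      refine ⟨mul_ne_zero (xsub_ne h a) ih.1, ?_⟩
      rw [W.ord_mul (xsub_ne h a) ih.1, W'.ord_mul (xsub_ne h a) ih.1, h1, ih.2]
  have h3 : ∀ p : κ[X], p ≠ 0 → aeval (algebraMap R M x) p ≠ 0 ∧
      W.ord (aeval (algebraMap R M x) p) = W'.ord (aeval (algebraMap R M x) p) := by
    intro p hp
    have h4 : p = C p.leadingCoeff * (p.roots.map fun a => X - C a).prod :=
      (IsAlgClosed.splits p).eq_prod_roots
    have h5 : aeval (algebraMap R M x) p = algebraMap κ M p.leadingCoeff *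
        (p.roots.map fun a => algebraMap R M x - algebraMap κ M a).prod := by
      conv_lhs => rw [h4]
      rw [map_mul, aeval_C, map_multiset_prod, Multiset.map_map]
      congr 3
      funext a
      simp
    have hl : p.leadingCoeff ≠ 0 := leadingCoeff_ne_zero.mpr hp
    have hl' : algebraMap κ M p.leadingCoeff ≠ 0 := by rw [_root_.map_ne_zero]; exact hl
    obtain ⟨h6, h7⟩ := h2 p.roots
    rw [h5]
    refine ⟨mul_ne_zero hl' h6, ?_⟩
    rw [W.ord_mul hl' h6, W'.ord_mul hl' h6, W.ord_const hl, W'.ord_const hl, h7]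
  intro r
  have hr : r ∈ IntermediateField.adjoin κ {x} := by rw [h.rat.gen]; trivial
  obtain ⟨p, q, hpq⟩ := (IntermediateField.mem_adjoin_simple_iff κ r).mp hr
  have h8 : ∀ p : κ[X], algebraMap R M (aeval x p) = aeval (algebraMap R M x) p := fun p =>
    (aeval_algebraMap_apply M x p).symm
  rw [hpq, map_div₀, h8, h8]
  by_cases hp : p = 0
  · rw [hp, map_zero, zero_div, W.ord_zero, W'.ord_zero]
  by_cases hq : q = 0
  · rw [hq, map_zero, div_zero, W.ord_zero, W'.ord_zero]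
  rw [W.ord_div (h3 p hp).1 (h3 q hq).1, W'.ord_div (h3 p hp).1 (h3 q hq).1, (h3 p hp).2,
    (h3 q hq).2]

end unq

end Pool.Agent.Y31.PS
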